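import Pool.Agent.Lib_helper30.EvenHomeo.Defs
import Pool.Agent.Lib_helper34.MinHomeo.Stab
import Pool.Agent.Lib_helper24.MinHomeo.Step
import Pool.Agent.Lib_helper58.MinHomeo.Frozen

/-!
# Module SCHEME: the limit homeomorphism (even dimensions)
-/

set_option autoImplicit false

open Set Metric Topology Filter

namespace Pool.Agent.EvenHomeo

open Pool.Agent.MinHomeo (Cstr Good stab step_list_stab frozen_lim frozen_iter)

/-- Stages of the construction. -/
structure SchemeStage {M : Type} [MetricSpace M] (S : Set ((M ≃ₜ M) × Set M)) (e : M) where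
  s : (M ≃ₜ M) × Set M
  κ : ℝ
  cs : List (Cstr M)
  hs : s ∈ S
  hκ : 0 < κ
  hW : s.2 ⊆ ball e κ
  hW' : ∀ x, s.1 x ∈ s.2 → x ∈ ball e κ
  hc : ∀ c ∈ cs, IsCompact c.K ∧ IsOpen c.U ∧ IsClosed c.F ∧ IsClosed c.B ∧ Good s.1 c ∧
    ball e κ ⊆ c.F ∧ ball e κ ⊆ c.B

/-- modulus of uniform continuity of a homeomorphism and its inverse -/
theorem scheme_modulus {M : Type} [MetricSpace M] [CompactSpace M] (f : M ≃ₜ M) (κ : ℝ)
    (hκ : 0 < κ) : ∃ ε : ℝ, 0 < ε ∧ (∀ a b, dist a b < ε → dist (f a) (f b) < κ) ∧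
      ∀ a b, dist a b < ε → dist (f.symm a) (f.symm b) < κ := by
  have h1 := CompactSpace.uniformContinuous_of_continuous f.continuous
  have h2 := CompactSpace.uniformContinuous_of_continuous f.symm.continuous
  obtain ⟨ε₁, hε₁, h1⟩ := Metric.uniformContinuous_iff.1 h1 κ hκ
  obtain ⟨ε₂, hε₂, h2⟩ := Metric.uniformContinuous_iff.1 h2 κ hκ
  exact ⟨min ε₁ ε₂, lt_min hε₁ hε₂, fun a b hab => h1 (hab.trans_le (min_le_left _ _)),
    fun a b hab => h2 (hab.trans_le (min_le_right _ _))⟩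

/-- comparison of two stages -/
theorem scheme_close {M : Type} [MetricSpace M] (f f' : M ≃ₜ M) (W W' : Set M) (e : M)
    (κ ε : ℝ) (hW : W ⊆ ball e κ) (hW' : ∀ x, f x ∈ W → x ∈ ball e κ) (hεκ : ε ≤ κ)
    (hm : ∀ a b, dist a b < ε → dist (f a) (f b) < κ)
    (hm' : ∀ a b, dist a b < ε → dist (f.symm a) (f.symm b) < κ)
    (hF : Fine ε (f', W') (f, W)) :
    (∀ x, dist (f' x) (f x) ≤ 2 * κ) ∧ ∀ x, dist (f'.symm x) (f.symm x) ≤ 2 * κ := by
  obtain ⟨-, -, h3, h4⟩ := hF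
  dsimp only at h3 h4
  have hκ0 : ∀ x, f x ∈ W → 0 < κ := fun x hx => pos_of_mem_ball (hW hx)
  constructor
  · intro x
    by_cases hx : f x ∈ W
    · have hk := hκ0 x hx
      by_cases hy : f' x ∈ W
      · have h5 := mem_ball.1 (hW hx)
        have h6 := mem_ball.1 (hW hy)
        have := dist_triangle_right (f' x) (f x) e
        linarith
      · have h5 := h4 _ hy
        rw [f'.symm_apply_apply] at h5
        have h6 := hm _ _ h5
        rw [f.apply_symm_apply, dist_comm] at h6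
        linarith
    · have h5 := h3 x hx
      have : 0 < ε := dist_nonneg.trans_lt h5
      linarith
  · intro x
    by_cases hx : x ∈ W
    · have hfx : f.symm x ∈ ball e κ := hW' _ (by rw [f.apply_symm_apply]; exact hx)
      have hk := pos_of_mem_ball hfx
      by_cases hy : f (f'.symm x) ∈ W
      · have h5 := mem_ball.1 hfx
        have h6 := mem_ball.1 (hW' _ hy)
        have := dist_triangle_right (f'.symm x) (f.symm x) e
        linarith
      · have h5 := h3 _ hy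
        rw [f'.apply_symm_apply] at h5
        have h6 := hm' _ _ h5
        rw [f.symm_apply_apply, dist_comm] at h6
        linarith
    · have h5 := h4 x hx
      have : 0 < ε := dist_nonneg.trans_lt h5
      linarith

/-- One step of the construction. -/
theorem scheme_step {M : Type} [MetricSpace M] [CompactSpace M] (e : M)
    (S : Set ((M ≃ₜ M) × Set M)) (hS : ∀ s ∈ S, IsClosed s.2 ∧ s.2 ∈ 𝓝 e ∧ s.1 e = e)
    (hA : PropA S) (hB : PropB S e) (t : SchemeStage S e) (U : Set M) (hU : IsOpen U)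
    (hUne : U.Nonempty) :
    ∃ (t' : SchemeStage S e) (c : Cstr M), t'.cs = c :: t.cs ∧ c.K = (ball e t.κ)ᶜ ∧ c.U = U ∧
      t'.κ ≤ t.κ / 2 ∧ (∀ x, dist (t'.s.1 x) (t.s.1 x) ≤ 4 * t.κ) ∧
      (∀ x, dist (t'.s.1.symm x) (t.s.1.symm x) ≤ 4 * t.κ) := by
  obtain ⟨⟨f, W⟩, κ, cs, hs, hκ, hW, hW', hc⟩ := t
  dsimp only at hs hW hW' hc ⊢
  -- property A
  obtain ⟨θ₀, hθ₀, hstab₀⟩ := step_list_stab stab f cs fun c hcc =>
    ⟨(hc c hcc).1, (hc c hcc).2.1, (hc c hcc).2.2.1, (hc c hcc).2.2.2.1, (hc c hcc).2.2.2.2.1⟩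
  obtain ⟨μ, hμ, hμ1, hμ2⟩ := scheme_modulus f κ hκ
  obtain ⟨⟨g, Wg⟩, hg, N, hFine, hHits⟩ := hA (f, W) hs U hU hUne (min κ (min θ₀ μ))
    (lt_min hκ (lt_min hθ₀ hμ))
  dsimp only at hHits
  obtain ⟨hgf1, hgf2⟩ := scheme_close f g W Wg e κ (min κ (min θ₀ μ)) hW hW' (min_le_left _ _)
    (fun a b hab => hμ1 a b (hab.trans_le ((min_le_right _ _).trans (min_le_right _ _))))
    (fun a b hab => hμ2 a b (hab.trans_le ((min_le_right _ _).trans (min_le_right _ _)))) hFine
  obtain ⟨hWgW, hWgW', h3, h4⟩ := hFine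
  dsimp only at hWgW hWgW' h3 h4
  have hle : min κ (min θ₀ μ) ≤ θ₀ := (min_le_right _ _).trans (min_le_left _ _)
  have hgW : Wg ⊆ ball e κ := hWgW.trans hW
  have hgW' : ∀ x, g x ∈ Wg → x ∈ ball e κ := fun x hx => hW' x (hWgW' x hx)
  have hgood : ∀ c ∈ cs, Good g c := by
    intro c hcc
    refine hstab₀ c hcc g ?_ ?_
    · intro x hx
      exact (h3 x fun hxW => hx ((hc c hcc).2.2.2.2.2.1 (hW' x hxW))).trans_le hle
    · intro x hx
      exact (h4 x fun hxW => hx ((hc c hcc).2.2.2.2.2.2 (hW hxW))).trans_le hle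
  obtain ⟨hWgc, hWgn, hge⟩ := hS _ hg
  dsimp only at hWgc hWgn hge
  -- the new constraint
  set c₀ : Cstr M := ⟨(ball e κ)ᶜ, U, {x | g x ∈ Wg}, Wg, N⟩ with hc₀
  have hnew : Good g c₀ := by
    intro x hx
    exact hHits x fun hxx => hx (hgW hxx.1)
  have hc₀' : IsCompact c₀.K ∧ IsOpen c₀.U ∧ IsClosed c₀.F ∧ IsClosed c₀.B ∧ Good g c₀ :=
    ⟨(isOpen_ball.isClosed_compl).isCompact, hU, hWgc.preimage g.continuous, hWgc, hnew⟩
  obtain ⟨θ, hθ, hstab⟩ := step_list_stab stab g (c₀ :: cs) (by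
    intro c hcc
    rcases List.mem_cons.1 hcc with rfl | hcc
    · exact hc₀'
    · exact ⟨(hc c hcc).1, (hc c hcc).2.1, (hc c hcc).2.2.1, (hc c hcc).2.2.2.1, hgood c hcc⟩)
  obtain ⟨r₁, hr₁, hr₁W⟩ := Metric.mem_nhds_iff.1 hWgn
  have hFn : {x | g x ∈ Wg} ∈ 𝓝 e := by
    have : Tendsto g (𝓝 e) (𝓝 e) := by
      have := g.continuous.tendsto e
      rwa [hge] at this
    exact this hWgn
  obtain ⟨r₂, hr₂, hr₂W⟩ := Metric.mem_nhds_iff.1 hFn
  obtain ⟨κ₂, hκ₂, hκ₂κ, hκ₂1, hκ₂2⟩ : ∃ κ₂ : ℝ, 0 < κ₂ ∧ κ₂ ≤ κ / 2 ∧ κ₂ ≤ r₁ ∧ κ₂ ≤ r₂ :=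
    ⟨min (κ / 2) (min r₁ r₂), lt_min (half_pos hκ) (lt_min hr₁ hr₂), min_le_left _ _,
      (min_le_right _ _).trans (min_le_left _ _), (min_le_right _ _).trans (min_le_right _ _)⟩
  obtain ⟨μ', hμ', hμ1', hμ2'⟩ := scheme_modulus g κ hκ
  -- property B
  obtain ⟨⟨q, Wq⟩, hq, hFine', hqW, hqW'⟩ := hB (g, Wg) hg (min κ (min θ μ')) κ₂
    (lt_min hκ (lt_min hθ hμ')) hκ₂
  dsimp only at hqW hqW'
  obtain ⟨hqg1, hqg2⟩ := scheme_close g q Wg Wq e κ (min κ (min θ μ')) hgW hgW' (min_le_left _ _)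
    (fun a b hab => hμ1' a b (hab.trans_le ((min_le_right _ _).trans (min_le_right _ _))))
    (fun a b hab => hμ2' a b (hab.trans_le ((min_le_right _ _).trans (min_le_right _ _)))) hFine'
  obtain ⟨-, -, h5, h6⟩ := hFine'
  dsimp only at h5 h6
  have hle' : min κ (min θ μ') ≤ θ := (min_le_right _ _).trans (min_le_left _ _)
  have hgood₂ : ∀ c ∈ c₀ :: cs, Good q c := by
    intro c hcc
    refine hstab c hcc q ?_ ?_
    · intro x hx
      refine (h5 x fun hxW => hx ?_).trans_le hle'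
      rcases List.mem_cons.1 hcc with rfl | hcc
      · exact hxW
      · exact (hc c hcc).2.2.2.2.2.1 (hgW' x hxW)
    · intro x hx
      refine (h6 x fun hxW => hx ?_).trans_le hle'
      rcases List.mem_cons.1 hcc with rfl | hcc
      · exact hxW
      · exact (hc c hcc).2.2.2.2.2.2 (hgW hxW)
  refine ⟨⟨(q, Wq), κ₂, c₀ :: cs, hq, hκ₂, hqW, hqW', ?_⟩, c₀, rfl, rfl, rfl, hκ₂κ, ?_, ?_⟩
  · intro c hcc
    have hG := hgood₂ c hcc
    rcases List.mem_cons.1 hcc with rfl | hcc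
    · exact ⟨hc₀'.1, hc₀'.2.1, hc₀'.2.2.1, hc₀'.2.2.2.1, hG,
        (ball_subset_ball hκ₂2).trans hr₂W, (ball_subset_ball hκ₂1).trans hr₁W⟩
    · obtain ⟨a1, a2, a3, a4, -, a6, a7⟩ := hc c hcc
      exact ⟨a1, a2, a3, a4, hG, (ball_subset_ball (by linarith)).trans a6,
        (ball_subset_ball (by linarith)).trans a7⟩
  · intro x
    dsimp only
    have h7 := hgf1 x
    have h8 := hqg1 x
    have := dist_triangle (q x) (g x) (f x)
    linarith
  · intro x
    dsimp only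
    have h7 := hgf2 x
    have h8 := hqg2 x
    have := dist_triangle (q.symm x) (g.symm x) (f.symm x)
    linarith

theorem scheme : Scheme_Stmt := by
  intro M _ _ e S hne hS hA hB
  classical
  obtain ⟨s00, hs00⟩ := hne
  -- the targets
  have : Nonempty M := ⟨e⟩
  let d : ℕ → M := TopologicalSpace.denseSeq M
  have hdense : DenseRange d := TopologicalSpace.denseRange_denseSeq M
  let U : ℕ → Set M := fun k =>
    ball (d (Nat.unpair (Nat.unpair k).1).1) (1 / ((Nat.unpair (Nat.unpair k).1).2 + 1 : ℝ))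
  have hUo : ∀ k, IsOpen (U k) := fun k => isOpen_ball
  have hUn : ∀ k, (U k).Nonempty := fun k => ⟨_, mem_ball_self (by positivity)⟩
  -- the first stage
  let κ₀ : ℝ := diam (univ : Set M) + 1
  have hκ₀ : 0 < κ₀ := by have := diam_nonneg (s := (univ : Set M)); simp only [κ₀]; linarith
  have hball : ∀ x : M, x ∈ ball e κ₀ := by
    intro x
    rw [mem_ball]
    have : dist x e ≤ diam (univ : Set M) :=
      dist_le_diam_of_mem isCompact_univ.isBounded (mem_univ x) (mem_univ e)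
    simp only [κ₀]; linarith
  let s0 : SchemeStage S e :=
    { s := s00, κ := κ₀, cs := [], hs := hs00, hκ := hκ₀,
      hW := fun x _ => hball x, hW' := fun x _ => hball x,
      hc := fun c hc => by simp at hc }
  -- the steps
  have hstep := fun (s : SchemeStage S e) (k : ℕ) =>
    scheme_step e S hS hA hB s (U k) (hUo k) (hUn k)
  choose nx cn hcs hcK hcU hκ hd hd' using hstep
  let s : ℕ → SchemeStage S e := fun k => Nat.rec s0 (fun k s => nx s k) k
  have hs : ∀ k, s (k + 1) = nx (s k) k := fun k => rfl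
  have hκle : ∀ k, (s k).κ ≤ κ₀ * (1 / 2) ^ k := by
    intro k
    induction k with
    | zero => simp [s, s0]
    | succ k ih =>
      rw [hs, pow_succ]
      have := hκ (s k) k
      linarith
  have hd1 : ∀ k x, dist ((s (k + 1)).s.1 x) ((s k).s.1 x) ≤ (4 * κ₀) * (1 / 2) ^ k := by
    intro k x
    rw [hs]
    have h1 := hd (s k) k x
    have h2 := hκle k
    nlinarith
  have hd2 : ∀ k x, dist ((s (k + 1)).s.1.symm x) ((s k).s.1.symm x) ≤
      (4 * κ₀) * (1 / 2) ^ k := by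
    intro k x
    rw [hs]
    have h1 := hd' (s k) k x
    have h2 := hκle k
    nlinarith
  obtain ⟨F, hFc, hFu⟩ := frozen_lim (fun k => ⇑(s k).s.1) (4 * κ₀)
    (fun k => (s k).s.1.continuous) hd1
  obtain ⟨G, hGc, hGu⟩ := frozen_lim (fun k => ⇑(s k).s.1.symm) (4 * κ₀)
    (fun k => (s k).s.1.symm.continuous) hd2
  have hFG : ∀ x, F (G x) = x := by
    intro x
    have h1 : Tendsto (fun k => (s k).s.1 ((s k).s.1.symm x)) atTop (𝓝 (F (G x))) :=
      hFu.tendsto_comp hFc.continuousAt (hGu.tendsto_at x)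
    simp only [Homeomorph.apply_symm_apply] at h1
    exact tendsto_nhds_unique h1 tendsto_const_nhds |>.symm ▸ rfl
  have hGF : ∀ x, G (F x) = x := by
    intro x
    have h1 : Tendsto (fun k => (s k).s.1.symm ((s k).s.1 x)) atTop (𝓝 (G (F x))) :=
      hGu.tendsto_comp hGc.continuousAt (hFu.tendsto_at x)
    simp only [Homeomorph.symm_apply_apply] at h1
    exact tendsto_nhds_unique h1 tendsto_const_nhds |>.symm ▸ rfl
  let f : M ≃ₜ M :=
    { toFun := F, invFun := G, left_inv := hGF, right_inv := hFG,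
      continuous_toFun := hFc, continuous_invFun := hGc }
  have hκ0 : Tendsto (fun k => (s k).κ) atTop (𝓝 0) := by
    have h2 : Tendsto (fun k : ℕ => κ₀ * ((1 : ℝ) / 2) ^ k) atTop (𝓝 0) := by
      simpa using (tendsto_pow_atTop_nhds_zero_of_lt_one (by norm_num : (0:ℝ) ≤ 1 / 2)
        (by norm_num)).const_mul κ₀
    exact squeeze_zero (fun k => (s k).hκ.le) hκle h2
  refine ⟨f, ?_, ?_⟩
  · -- f e = e
    have h1 : Tendsto (fun k => (s k).s.1 e) atTop (𝓝 (F e)) := hFu.tendsto_at e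
    have h2 : ∀ k, (s k).s.1 e = e := fun k => (hS _ (s k).hs).2.2
    simp only [h2] at h1
    exact (tendsto_nhds_unique h1 tendsto_const_nhds)
  · intro x hx V hV hVn
    by_contra hcon
    push Not at hcon
    -- choose the target
    obtain ⟨y, hy⟩ := hVn
    obtain ⟨r, hr, hrV⟩ := Metric.isOpen_iff.1 hV y hy
    obtain ⟨j, hj⟩ := exists_nat_one_div_lt (show (0 : ℝ) < r / 2 by linarith)
    obtain ⟨i, hi⟩ := hdense.exists_dist_lt y (show (0 : ℝ) < 1 / ((j : ℝ) + 1) by positivity)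
    have hcb : closedBall (d i) (1 / ((j : ℝ) + 1)) ⊆ V := by
      intro z hz
      apply hrV
      rw [mem_ball]
      rw [mem_closedBall] at hz
      have := dist_triangle z (d i) y
      rw [dist_comm] at hi
      linarith
    have hxe : 0 < dist x e := dist_pos.2 hx
    obtain ⟨n, hn⟩ := (hκ0.eventually (gt_mem_nhds hxe)).exists_forall_of_atTop
    set k := Nat.pair (Nat.pair i j) n with hk
    have hkn : n ≤ k := Nat.right_le_pair _ _
    have hUk : U k = ball (d i) (1 / ((j : ℝ) + 1)) := by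
      simp only [U, hk, Nat.unpair_pair]
    have hκk := hn k hkn
    -- the constraint
    have hmem : ∀ l, k + 1 ≤ l → cn (s k) k ∈ (s l).cs := by
      intro l hl
      induction l, hl using Nat.le_induction with
      | base => rw [hs, hcs]; exact List.mem_cons_self
      | succ l hl ih => rw [hs, hcs]; exact List.mem_cons_of_mem _ ih
    have hxK : x ∈ (cn (s k) k).K := by
      rw [hcK]
      simp only [mem_compl_iff, mem_ball, not_lt]
      linarith
    set N := (cn (s k) k).N with hN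
    have hgood : ∀ l, k + 1 ≤ l → ∃ a ≤ N, ((⇑(s l).s.1)^[a] x ∈ closedBall (d i) (1 / ((j : ℝ) + 1)) ∨
        (⇑(s l).s.1.symm)^[a] x ∈ closedBall (d i) (1 / ((j : ℝ) + 1))) := by
      intro l hl
      have hg := ((s l).hc _ (hmem l hl)).2.2.2.2.1
      have hUeq : (cn (s k) k).U = ball (d i) (1 / ((j : ℝ) + 1)) := by rw [hcU, hUk]
      rcases hg x hxK with ⟨a, ha, hau, -⟩ | ⟨a, ha, hau, -⟩
      · rw [hUeq] at hau
        exact ⟨a, ha, Or.inl (ball_subset_closedBall hau)⟩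
      · rw [hUeq] at hau
        exact ⟨a, ha, Or.inr (ball_subset_closedBall hau)⟩
    have hev : ∀ a ∈ Set.Iic N, ∀ᶠ l in atTop,
        (⇑(s l).s.1)^[a] x ∉ closedBall (d i) (1 / ((j : ℝ) + 1)) ∧
        (⇑(s l).s.1.symm)^[a] x ∉ closedBall (d i) (1 / ((j : ℝ) + 1)) := by
      intro a _
      have h1 := frozen_iter (fun k => ⇑(s k).s.1) F hFc hFu x a
      have h2 := frozen_iter (fun k => ⇑(s k).s.1.symm) G hGc hGu x a
      have h3 := hcon a
      have h4 : F^[a] x ∈ (closedBall (d i) (1 / ((j : ℝ) + 1)))ᶜ := fun hh => h3.1 (hcb hh)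
      have h5 : G^[a] x ∈ (closedBall (d i) (1 / ((j : ℝ) + 1)))ᶜ := fun hh => h3.2 (hcb hh)
      have h6 := h1.eventually (isClosed_closedBall.isOpen_compl.mem_nhds h4)
      have h7 := h2.eventually (isClosed_closedBall.isOpen_compl.mem_nhds h5)
      filter_upwards [h6, h7] with l hl hl'
      exact ⟨hl, hl'⟩
    have hall := (Filter.eventually_all_finite (Set.finite_Iic N)).2 hev
    obtain ⟨l, hl1, hl2⟩ := (hall.and (eventually_ge_atTop (k + 1))).exists
    obtain ⟨a, ha, hh⟩ := hgood l hl2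
    have := hl1 a ha
    tauto

end Pool.Agent.EvenHomeo
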